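import Pool.Agent.K3h9.RBC.Defs

/-!
# The directed red-blue cut problem: the construction

`E` is a list of pairs (the edges of a graph `H`), `m` its length. The digraph has the vertices
`0, …, m + 1` (the block `S`), `m + 2, …, 2 m + 3` (the block `T`), one vertex for each edge of `H`
and one vertex for each vertex of `H`. All arcs with head in `S` and all arcs with tail in `T` are
present and red; this forces `S ⊆ X` and `T ∩ X = ∅` for every cut `δ⁺(X)` with at most `m` red arcs.
-/

set_option autoImplicit false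

namespace Pool.Agent.K3h9.RBC

/-- The presence of an arc, for the list `E` of edges. -/
def Ar (E : List (ℕ × ℕ)) (x y : ℕ) : Prop :=
  x ≠ y ∧ (y < E.length + 2 ∨ (E.length + 2 ≤ x ∧ x < 2 * (E.length + 2)) ∨
    (x = 0 ∧ 2 * (E.length + 2) ≤ y ∧ y < 2 * (E.length + 2) + E.length) ∨
    ((2 * (E.length + 2) ≤ x ∧ x < 2 * (E.length + 2) + E.length) ∧
      (y = 2 * (E.length + 2) + E.length + (E.getD (x - 2 * (E.length + 2)) (0, 0)).1 ∨
       y = 2 * (E.length + 2) + E.length + (E.getD (x - 2 * (E.length + 2)) (0, 0)).2)) ∨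
    (2 * (E.length + 2) + E.length ≤ x ∧ y = E.length + 2))

instance (E : List (ℕ × ℕ)) (x y : ℕ) : Decidable (Ar E x y) := by
  unfold Ar; infer_instance

/-- The colour of an arc: blue for the arcs from the vertices of `H` to the first vertex of `T`. -/
def col (E : List (ℕ × ℕ)) (x y : ℕ) : Bool :=
  !(decide (2 * (E.length + 2) + E.length ≤ x) && decide (y = E.length + 2))

/-- The vertices. -/
def vs (V : List ℕ) (E : List (ℕ × ℕ)) : List ℕ :=
  List.range (2 * (E.length + 2) + E.length) ++ V.map (fun v => 2 * (E.length + 2) + E.length + v)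

/-- The digraph. -/
def dg (V : List ℕ) (E : List (ℕ × ℕ)) : ColouredDigraph :=
  (vs V E, ((vs V E ×ˢ vs V E).filter (fun a => decide (Ar E a.1 a.2))).map
    (fun a => (a, col E a.1 a.2)))

theorem vs_nodup {V : List ℕ} {E : List (ℕ × ℕ)} (h : V.Nodup) : (vs V E).Nodup := by
  unfold vs
  rw [List.nodup_append]
  refine ⟨List.nodup_range, h.map fun a b hab => by simpa using hab, ?_⟩
  intro a ha b hb
  rw [List.mem_range] at ha
  rw [List.mem_map] at hb
  obtain ⟨v, _, rfl⟩ := hb
  omega

theorem isDigraph_dg {V : List ℕ} {E : List (ℕ × ℕ)} (h : V.Nodup) : IsDigraph (dg V E) := by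
  refine ⟨vs_nodup h, ?_⟩
  intro a ha
  unfold dg at ha
  simp only [List.mem_map, List.mem_filter] at ha
  obtain ⟨⟨x, y⟩, ⟨h1, _⟩, rfl⟩ := ha
  exact List.mem_product.1 h1

theorem isSimple_dg {V : List ℕ} {E : List (ℕ × ℕ)} (h : V.Nodup) : IsSimple (dg V E) := by
  constructor
  · intro a ha
    unfold dg at ha
    simp only [List.mem_map, List.mem_filter, decide_eq_true_eq] at ha
    obtain ⟨a', ⟨_, h2⟩, rfl⟩ := ha
    exact h2.1
  · unfold dg
    simp only [List.map_map]
    have h1 : (Prod.fst ∘ fun a : ℕ × ℕ => (a, col E a.1 a.2)) = id := rfl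
    rw [h1, List.map_id]
    exact ((vs_nodup h).product (vs_nodup h)).filter _

/-- The arcs of colour `c` in the cut, as a finite set. -/
def cutSet (V : List ℕ) (E : List (ℕ × ℕ)) (X : Finset ℕ) (c : Bool) : Finset (ℕ × ℕ) :=
  ((vs V E).toFinset ×ˢ (vs V E).toFinset).filter
    (fun a => (a.1 ∈ X ∧ a.2 ∉ X ∧ col E a.1 a.2 = c) ∧ Ar E a.1 a.2)

theorem mem_cutSet {V : List ℕ} {E : List (ℕ × ℕ)} {X : Finset ℕ} {c : Bool} {a : ℕ × ℕ} :
    a ∈ cutSet V E X c ↔ (a.1 ∈ vs V E ∧ a.2 ∈ vs V E) ∧
      (a.1 ∈ X ∧ a.2 ∉ X ∧ col E a.1 a.2 = c) ∧ Ar E a.1 a.2 := by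
  unfold cutSet
  rw [Finset.mem_filter, Finset.mem_product, List.mem_toFinset, List.mem_toFinset]

theorem cutSize_dg {V : List ℕ} {E : List (ℕ × ℕ)} (h : V.Nodup) (X : Finset ℕ) (c : Bool) :
    cutSize (dg V E) X c = (cutSet V E X c).card := by
  have hn : (vs V E ×ˢ vs V E).Nodup := (vs_nodup h).product (vs_nodup h)
  unfold cutSize dg
  simp only [List.countP_map, List.countP_filter]
  rw [List.countP_eq_length_filter, ← List.toFinset_card_of_nodup (hn.filter _)]
  congr 1
  ext ⟨x, y⟩
  rw [mem_cutSet]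
  simp only [Function.comp_apply, List.mem_toFinset, List.mem_filter,
    Bool.and_eq_true, decide_eq_true_eq, List.mem_product]

theorem mem_vs {V : List ℕ} {E : List (ℕ × ℕ)} {x : ℕ} : x ∈ vs V E ↔
    x < 2 * (E.length + 2) + E.length ∨
      ∃ v ∈ V, 2 * (E.length + 2) + E.length + v = x := by
  unfold vs
  rw [List.mem_append, List.mem_range, List.mem_map]

/-- A set of at least `m + 1` red arcs in the cut. -/
theorem many {V : List ℕ} {E : List (ℕ × ℕ)} {X : Finset ℕ} (f : ℕ → ℕ × ℕ)
    (B : Finset ℕ) (hB : E.length + 1 ≤ B.card)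
    (hinj : ∀ i ∈ B, ∀ j ∈ B, f i = f j → i = j)
    (h : ∀ i ∈ B, f i ∈ cutSet V E X true) : E.length < (cutSet V E X true).card := by
  refine lt_of_lt_of_le (Nat.lt_succ_self _) (hB.trans ?_)
  exact Finset.card_le_card_of_injOn f h fun i hi j hj hij => hinj i hi j hj hij

theorem col_red {E : List (ℕ × ℕ)} {x y : ℕ} (h : y ≠ E.length + 2) : col E x y = true := by
  simp [col, h]

theorem col_red' {E : List (ℕ × ℕ)} {x y : ℕ} (h : x < 2 * (E.length + 2) + E.length) :
    col E x y = true := by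
  simp [col, not_le.2 h]

/-- Every cut with at most `m` red arcs separates the blocks. -/
theorem forced {V : List ℕ} {E : List (ℕ × ℕ)} {X : Finset ℕ} (hX : X.Nonempty)
    (hV : X ⊂ (vs V E).toFinset) (h : (cutSet V E X true).card ≤ E.length) :
    (∀ i, i < E.length + 2 → i ∈ X) ∧
    ∀ i, E.length + 2 ≤ i → i < 2 * (E.length + 2) → i ∉ X := by
  have hsub : ∀ x ∈ X, x ∈ vs V E := fun x hx => List.mem_toFinset.1 (hV.1 hx)
  have hcardr : ((Finset.range (E.length + 2))).card = E.length + 2 := Finset.card_range _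
  have hvi : ∀ i, i < E.length + 2 → i ∈ vs V E := fun i hi => mem_vs.2 (Or.inl (by omega))
  have hti : ∀ i, i < 2 * (E.length + 2) → i ∈ vs V E := fun i hi => mem_vs.2 (Or.inl (by omega))
  -- first the block `S`
  have hS : ∀ i, i < E.length + 2 → i ∈ X := by
    intro j hj
    by_contra hjX
    by_cases hex : ∃ i, i < E.length + 2 ∧ i ∈ X
    · obtain ⟨i, hi, hiX⟩ := hex
      have hne : i ≠ j := fun h => hjX (h ▸ hiX)
      refine absurd (many (V := V) (X := X) (fun l => if l ∈ X then (l, j) else (i, l))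
        ((Finset.range (E.length + 2)).erase i) ?_ ?_ ?_) (not_lt.2 h)
      · rw [Finset.card_erase_of_mem (Finset.mem_range.2 hi), hcardr]; omega
      · intro a ha b hb hab
        rw [Finset.mem_erase, Finset.mem_range] at ha hb
        by_cases h1 : a ∈ X <;> by_cases h2 : b ∈ X <;> simp only [h1, h2, if_true, if_false,
          Prod.mk.injEq] at hab
        · exact hab.1
        · exact absurd hab.1 ha.1
        · exact absurd hab.1.symm hb.1
        · exact hab.2
      · intro l hl
        rw [Finset.mem_erase, Finset.mem_range] at hl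
        by_cases h1 : l ∈ X
        · rw [if_pos h1, mem_cutSet]
          refine ⟨⟨hvi l hl.2, hvi j hj⟩, ⟨h1, hjX, col_red' (by simp only; omega)⟩, ?_, Or.inl hj⟩
          rintro (rfl : l = j)
          exact hjX h1
        · rw [if_neg h1, mem_cutSet]
          exact ⟨⟨hvi i hi, hvi l hl.2⟩, ⟨hiX, h1, col_red' (by simp only; omega)⟩,
            fun h => hl.1 h.symm, Or.inl hl.2⟩
    · push Not at hex
      obtain ⟨x, hx⟩ := hX
      refine absurd (many (V := V) (X := X) (fun l => (x, l)) (Finset.range (E.length + 2))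
        ?_ ?_ ?_) (not_lt.2 h)
      · rw [hcardr]; omega
      · intro a _ b _ hab
        simpa using hab
      · intro l hl
        rw [Finset.mem_range] at hl
        rw [mem_cutSet]
        refine ⟨⟨hsub x hx, hvi l hl⟩, ⟨hx, hex l hl, col_red (by simp only; omega)⟩, ?_, Or.inl hl⟩
        rintro (rfl : x = l)
        exact hex x hl hx
  refine ⟨hS, ?_⟩
  intro j hj1 hj2 hjX
  by_cases hex : ∃ i, E.length + 2 ≤ i ∧ i < 2 * (E.length + 2) ∧ i ∉ X
  · obtain ⟨i, hi1, hi2, hiX⟩ := hex
    have hne : i ≠ j := fun h => hiX (h ▸ hjX)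
    refine absurd (many (V := V) (X := X) (fun l => if l ∈ X then (l, i) else (j, l))
      ((Finset.Ico (E.length + 2) (2 * (E.length + 2))).erase j) ?_ ?_ ?_) (not_lt.2 h)
    · rw [Finset.card_erase_of_mem (Finset.mem_Ico.2 ⟨hj1, hj2⟩), Nat.card_Ico]; omega
    · intro a ha b hb hab
      rw [Finset.mem_erase, Finset.mem_Ico] at ha hb
      by_cases h1 : a ∈ X <;> by_cases h2 : b ∈ X <;> simp only [h1, h2, if_true, if_false,
        Prod.mk.injEq] at hab
      · exact hab.1
      · exact absurd hab.1 ha.1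
      · exact absurd hab.1.symm hb.1
      · exact hab.2
    · intro l hl
      rw [Finset.mem_erase, Finset.mem_Ico] at hl
      by_cases h1 : l ∈ X
      · rw [if_pos h1, mem_cutSet]
        refine ⟨⟨hti l hl.2.2, hti i hi2⟩, ⟨h1, hiX, col_red' (by simp only; omega)⟩, ?_,
          Or.inr (Or.inl hl.2)⟩
        rintro (rfl : l = i)
        exact hiX h1
      · rw [if_neg h1, mem_cutSet]
        exact ⟨⟨hti j hj2, hti l hl.2.2⟩, ⟨hjX, h1, col_red' (by simp only; omega)⟩,
          fun h => hl.1 h.symm, Or.inr (Or.inl ⟨hj1, hj2⟩)⟩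
  · push Not at hex
    obtain ⟨y, hyV, hyX⟩ := Finset.exists_of_ssubset hV
    rw [List.mem_toFinset] at hyV
    refine absurd (many (V := V) (X := X) (fun l => (l, y))
      (Finset.Ico (E.length + 2) (2 * (E.length + 2))) ?_ ?_ ?_) (not_lt.2 h)
    · rw [Nat.card_Ico]; omega
    · intro a _ b _ hab
      simpa using hab
    · intro l hl
      rw [Finset.mem_Ico] at hl
      rw [mem_cutSet]
      refine ⟨⟨hti l hl.2, hyV⟩, ⟨hex l hl.1 hl.2, hyX, col_red' (by simp only; omega)⟩, ?_,
        Or.inr (Or.inl hl)⟩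
      rintro (rfl : l = y)
      exact hyX (hex l hl.1 hl.2)

end Pool.Agent.K3h9.RBC
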