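import Pool.Agent.K3h9.RBC.Core
import Pool.Agent.H634R2.Clique

/-!
# The directed red-blue cut problem: correctness of the construction
-/

set_option autoImplicit false

namespace Pool.Agent.K3h9.RBC

open Pool.Agent.NPC.H634R2 (inside IsGraph HasClique)

theorem countP_range {α : Type} (E : List α) (d : α) (p : α → Bool) : E.countP p =
    ((Finset.range E.length).filter (fun j => p (E.getD j d) = true)).card := by
  have h : E = (List.range E.length).map (fun j => E.getD j d) := by
    apply List.ext_getElem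
    · simp
    · intro i h1 h2
      simp only [List.getElem_map, List.getElem_range]
      rw [List.getD_eq_getElem _ _ h1]
  conv_lhs => rw [h]
  rw [List.countP_map, List.countP_eq_length_filter,
    ← List.toFinset_card_of_nodup (List.nodup_range.filter _)]
  congr 1
  ext j
  simp

/-- The edges (indices) with an end outside `U`. -/
def out (E : List (ℕ × ℕ)) (U : Finset ℕ) : Finset ℕ :=
  (Finset.range E.length).filter
    (fun j => ¬ ((E.getD j (0, 0)).1 ∈ U ∧ (E.getD j (0, 0)).2 ∈ U))

theorem mem_out {E : List (ℕ × ℕ)} {U : Finset ℕ} {j : ℕ} : j ∈ out E U ↔ j < E.length ∧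
    ¬ ((E.getD j (0, 0)).1 ∈ U ∧ (E.getD j (0, 0)).2 ∈ U) := by
  unfold out
  rw [Finset.mem_filter, Finset.mem_range]

theorem out_card (E : List (ℕ × ℕ)) (U : Finset ℕ) : (out E U).card + inside E U = E.length := by
  unfold out inside
  rw [countP_range E (0, 0)]
  have h := Finset.card_filter_add_card_filter_not (s := Finset.range E.length)
    (fun j => (E.getD j (0, 0)).1 ∈ U ∧ (E.getD j (0, 0)).2 ∈ U)
  rw [Finset.card_range, add_comm] at h
  have h2 : ((Finset.range E.length).filter (fun j => (decide ((E.getD j (0, 0)).1 ∈ U) &&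
      decide ((E.getD j (0, 0)).2 ∈ U)) = true)) = (Finset.range E.length).filter
      (fun j => (E.getD j (0, 0)).1 ∈ U ∧ (E.getD j (0, 0)).2 ∈ U) := by
    apply Finset.filter_congr
    intro j _
    rw [Bool.and_eq_true, decide_eq_true_eq, decide_eq_true_eq]
  rw [h2]
  exact h

theorem getD_mem {V : List ℕ} {E : List (ℕ × ℕ)} (h : IsGraph V E) {j : ℕ} (hj : j < E.length) :
    (E.getD j (0, 0)).1 ∈ V ∧ (E.getD j (0, 0)).2 ∈ V := by
  rw [List.getD_eq_getElem _ _ hj]
  have := h.2.1 _ (List.getElem_mem hj)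
  exact ⟨this.1, this.2.1⟩

/-- From a cut to a dense set of vertices. -/
theorem dense_of_cut {V : List ℕ} {E : List (ℕ × ℕ)} (h : IsGraph V E) {k : ℕ}
    (hk : k.choose 2 ≤ E.length) (hc : HasCut (dg V E) (E.length - k.choose 2) k) :
    ∃ U : Finset ℕ, (∀ v ∈ U, v ∈ V) ∧ U.card ≤ k ∧ k.choose 2 ≤ inside E U := by
  obtain ⟨X, hX, hXV, hr, hb⟩ := hc
  rw [cutSize_dg h.1] at hr hb
  obtain ⟨hS, hT⟩ := forced hX hXV (by omega)
  refine ⟨V.toFinset.filter (fun v => 2 * (E.length + 2) + E.length + v ∈ X), ?_, ?_, ?_⟩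
  · intro v hv
    rw [Finset.mem_filter, List.mem_toFinset] at hv
    exact hv.1
  · refine le_trans ?_ hb
    refine Finset.card_le_card_of_injOn
      (fun v => (2 * (E.length + 2) + E.length + v, E.length + 2)) ?_ ?_
    · intro v hv
      rw [Finset.mem_coe, Finset.mem_filter, List.mem_toFinset] at hv
      rw [Finset.mem_coe, mem_cutSet]
      have e1 : E.length + 2 ∈ vs V E := mem_vs.2 (Or.inl (by omega))
      dsimp only
      refine ⟨⟨mem_vs.2 (Or.inr ⟨v, hv.1, rfl⟩), e1⟩,
        ⟨hv.2, hT _ le_rfl (by omega), ?_⟩, ?_⟩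
      · simp [col]
      · refine ⟨?_, Or.inr (Or.inr (Or.inr (Or.inr ⟨by omega, rfl⟩)))⟩
        omega
    · intro v _ w _ hvw
      simpa using hvw
  · set U := V.toFinset.filter (fun v => 2 * (E.length + 2) + E.length + v ∈ X) with hU
    have h1 := out_card E U
    have h2 : (out E U).card ≤ (cutSet V E X true).card := by
      refine Finset.card_le_card_of_injOn (fun j =>
        if 2 * (E.length + 2) + j ∈ X then
          if 2 * (E.length + 2) + E.length + (E.getD j (0, 0)).1 ∈ X then
            (2 * (E.length + 2) + j, 2 * (E.length + 2) + E.length + (E.getD j (0, 0)).2)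
          else (2 * (E.length + 2) + j, 2 * (E.length + 2) + E.length + (E.getD j (0, 0)).1)
        else (0, 2 * (E.length + 2) + j)) ?_ ?_
      · intro j hj
        rw [Finset.mem_coe, mem_out] at hj
        obtain ⟨hj1, hj2⟩ := hj
        have hm := getD_mem h hj1
        have e1 : 2 * (E.length + 2) + j ∈ vs V E := mem_vs.2 (Or.inl (by omega))
        have e2 : 2 * (E.length + 2) + E.length + (E.getD j (0, 0)).1 ∈ vs V E :=
          mem_vs.2 (Or.inr ⟨_, hm.1, rfl⟩)
        have e3 : 2 * (E.length + 2) + E.length + (E.getD j (0, 0)).2 ∈ vs V E :=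
          mem_vs.2 (Or.inr ⟨_, hm.2, rfl⟩)
        have e4 : 2 * (E.length + 2) + j - 2 * (E.length + 2) = j := by omega
        rw [Finset.mem_coe]
        by_cases g1 : 2 * (E.length + 2) + j ∈ X
        · simp only [g1, if_true]
          by_cases g2 : 2 * (E.length + 2) + E.length + (E.getD j (0, 0)).1 ∈ X
          · rw [if_pos g2, mem_cutSet]
            have g3 : 2 * (E.length + 2) + E.length + (E.getD j (0, 0)).2 ∉ X := by
              intro g3
              apply hj2
              rw [hU, Finset.mem_filter, Finset.mem_filter, List.mem_toFinset, List.mem_toFinset]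
              exact ⟨⟨hm.1, g2⟩, ⟨hm.2, g3⟩⟩
            refine ⟨⟨e1, e3⟩, ⟨g1, g3, col_red' (by simp only; omega)⟩, ?_⟩
            refine ⟨by simp only; omega, Or.inr (Or.inr (Or.inr (Or.inl ⟨⟨by simp only; omega,
              by simp only; omega⟩, ?_⟩)))⟩
            right
            simp only [e4]
          · rw [if_neg g2, mem_cutSet]
            refine ⟨⟨e1, e2⟩, ⟨g1, g2, col_red' (by simp only; omega)⟩, ?_⟩
            refine ⟨by simp only; omega, Or.inr (Or.inr (Or.inr (Or.inl ⟨⟨by simp only; omega,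
              by simp only; omega⟩, ?_⟩)))⟩
            left
            simp only [e4]
        · simp only [g1, if_false]
          rw [mem_cutSet]
          refine ⟨⟨mem_vs.2 (Or.inl (by omega)), e1⟩, ⟨hS 0 (by omega), g1,
            col_red' (by simp only; omega)⟩, ?_⟩
          exact ⟨by simp only; omega, Or.inr (Or.inr (Or.inl ⟨rfl, by simp only; omega,
            by simp only; omega⟩))⟩
      · intro i hi j hj hij
        rw [Finset.mem_coe, mem_out] at hi hj
        simp only at hij
        split_ifs at hij <;> simp only [Prod.mk.injEq] at hij <;> omega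
    omega

/-- From a dense set of vertices to a cut. -/
theorem cut_of_dense {V : List ℕ} {E : List (ℕ × ℕ)} (h : IsGraph V E) {k : ℕ}
    {U : Finset ℕ} (hUV : ∀ v ∈ U, v ∈ V) (hU : U.card ≤ k) (hin : k.choose 2 ≤ inside E U) :
    HasCut (dg V E) (E.length - k.choose 2) k := by
  set X : Finset ℕ := Finset.range (E.length + 2) ∪
    ((Finset.range E.length \ out E U).image (fun j => 2 * (E.length + 2) + j) ∪
      U.image (fun v => 2 * (E.length + 2) + E.length + v)) with hX
  have memX : ∀ x, x ∈ X ↔ x < E.length + 2 ∨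
      (∃ j, (j < E.length ∧ j ∉ out E U) ∧ 2 * (E.length + 2) + j = x) ∨
      ∃ v ∈ U, 2 * (E.length + 2) + E.length + v = x := by
    intro x
    rw [hX, Finset.mem_union, Finset.mem_union, Finset.mem_range, Finset.mem_image,
      Finset.mem_image]
    simp only [Finset.mem_sdiff, Finset.mem_range]
  have hTX : E.length + 2 ∉ X := by
    rw [memX]
    rintro (h1 | ⟨j, _, h1⟩ | ⟨v, _, h1⟩) <;> omega
  refine ⟨X, ⟨0, (memX 0).2 (Or.inl (by omega))⟩, ?_, ?_, ?_⟩
  · refine (Finset.ssubset_iff_of_subset ?_).2 ⟨E.length + 2, ?_, hTX⟩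
    · intro x hx
      change x ∈ (vs V E).toFinset
      rw [List.mem_toFinset, mem_vs]
      rcases (memX x).1 hx with h1 | ⟨j, hj, rfl⟩ | ⟨v, hv, rfl⟩
      · left; omega
      · left; omega
      · right; exact ⟨v, hUV v hv, rfl⟩
    · change _ ∈ (vs V E).toFinset
      rw [List.mem_toFinset, mem_vs]
      left; omega
  · rw [cutSize_dg h.1]
    have h1 := out_card E U
    refine le_trans ?_ (show (out E U).card ≤ E.length - k.choose 2 by omega)
    refine (Finset.card_le_card (t := (out E U).image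
      (fun j => ((0 : ℕ), 2 * (E.length + 2) + j))) ?_).trans Finset.card_image_le
    rintro ⟨x, y⟩ hxy
    rw [mem_cutSet] at hxy
    simp only at hxy
    obtain ⟨⟨hx, hy⟩, ⟨hxX, hyX, hcol⟩, hne, har⟩ := hxy
    rw [Finset.mem_image]
    rcases har with h2 | h2 | h2 | h2 | h2
    · exact absurd ((memX y).2 (Or.inl h2)) hyX
    · exfalso
      rcases (memX x).1 hxX with h3 | ⟨j, _, h3⟩ | ⟨v, _, h3⟩ <;> omega
    · obtain ⟨rfl, h3, h4⟩ := h2
      refine ⟨y - 2 * (E.length + 2), ?_, by rw [Nat.add_sub_cancel' h3]⟩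
      by_contra h5
      exact hyX ((memX y).2 (Or.inr (Or.inl ⟨y - 2 * (E.length + 2), ⟨by omega, h5⟩, by omega⟩)))
    · exfalso
      obtain ⟨⟨h3, h4⟩, h5⟩ := h2
      have h6 : x - 2 * (E.length + 2) ∉ out E U := by
        rcases (memX x).1 hxX with h7 | ⟨j, hj, h7⟩ | ⟨v, _, h7⟩
        · omega
        · have : x - 2 * (E.length + 2) = j := by omega
          rw [this]; exact hj.2
        · omega
      rw [mem_out, not_and_not_right] at h6
      have h7 := h6 (by omega)
      rcases h5 with rfl | rfl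
      · exact hyX ((memX _).2 (Or.inr (Or.inr ⟨_, h7.1, rfl⟩)))
      · exact hyX ((memX _).2 (Or.inr (Or.inr ⟨_, h7.2, rfl⟩)))
    · exfalso
      simp [col, h2.1, h2.2] at hcol
  · rw [cutSize_dg h.1]
    refine le_trans ?_ hU
    refine (Finset.card_le_card (t := U.image
      (fun v => (2 * (E.length + 2) + E.length + v, E.length + 2))) ?_).trans
        Finset.card_image_le
    rintro ⟨x, y⟩ hxy
    rw [mem_cutSet] at hxy
    simp only at hxy
    obtain ⟨⟨hx, hy⟩, ⟨hxX, hyX, hcol⟩, hne, har⟩ := hxy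
    have h2 : 2 * (E.length + 2) + E.length ≤ x ∧ y = E.length + 2 := by
      simpa [col] using hcol
    rw [Finset.mem_image]
    rcases (memX x).1 hxX with h3 | ⟨j, h4, h3⟩ | ⟨v, hv, h3⟩
    · omega
    · omega
    · exact ⟨v, hv, by rw [h3, h2.2]⟩

/-- Correctness of the construction. -/
theorem hasCut_iff {V : List ℕ} {E : List (ℕ × ℕ)} (h : IsGraph V E) {k : ℕ} (hk : 2 ≤ k)
    (hk2 : k.choose 2 ≤ E.length) :
    HasCut (dg V E) (E.length - k.choose 2) k ↔ HasClique V E k := by
  rw [Pool.Agent.NPC.H634R2.hasClique_iff h hk]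
  exact ⟨dense_of_cut h hk2, fun ⟨_, h1, h2, h3⟩ => cut_of_dense h h1 h2 h3⟩

end Pool.Agent.K3h9.RBC
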