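import Mathlib

/-!
# The directed red-blue cut problem: definitions
-/

set_option autoImplicit false

namespace Pool.Agent.K3h9.RBC

/-- A digraph with coloured arcs, given by the list of its vertices (which are named by natural
numbers) and the list of its arcs. An arc is `((tail, head), colour)`, where the colour `true` is
red and the colour `false` is blue. -/
abbrev ColouredDigraph : Type := List ℕ × List ((ℕ × ℕ) × Bool)

/-- Every vertex is listed once, and the arcs join listed vertices. Parallel arcs are allowed. -/
def IsDigraph (D : ColouredDigraph) : Prop :=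
  D.1.Nodup ∧ ∀ a ∈ D.2, a.1.1 ∈ D.1 ∧ a.1.2 ∈ D.1

/-- There are no loops and no parallel arcs (opposite arcs are allowed). -/
def IsSimple (D : ColouredDigraph) : Prop :=
  (∀ a ∈ D.2, a.1.1 ≠ a.1.2) ∧ (D.2.map Prod.fst).Nodup

/-- The number of the arcs of colour `c` in the cut `δ⁺(X)`, i.e. of the arcs of colour `c` with tail
in `X` and head outside `X`. -/
def cutSize (D : ColouredDigraph) (X : Finset ℕ) (c : Bool) : ℕ :=
  D.2.countP (fun a => decide (a.1.1 ∈ X ∧ a.1.2 ∉ X ∧ a.2 = c))

/-- Some cut `δ⁺(X)`, `X` a nonempty proper subset of the vertex set, contains at most `r` red arcs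
and at most `b` blue arcs. -/
def HasCut (D : ColouredDigraph) (r b : ℕ) : Prop :=
  ∃ X : Finset ℕ, X.Nonempty ∧ X ⊂ D.1.toFinset ∧ cutSize D X true ≤ r ∧ cutSize D X false ≤ b

/-- The directed red-blue cut problem. An instance is a digraph with coloured arcs together with the
numbers `r` and `b`. -/
def RedBlueCut (I : ColouredDigraph × (ℕ × ℕ)) : Prop :=
  IsDigraph I.1 ∧ HasCut I.1 I.2.1 I.2.2

/-- The directed red-blue cut problem for digraphs without loops and parallel arcs. -/
def SimpleRedBlueCut (I : ColouredDigraph × (ℕ × ℕ)) : Prop :=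
  IsDigraph I.1 ∧ IsSimple I.1 ∧ HasCut I.1 I.2.1 I.2.2

end Pool.Agent.K3h9.RBC
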