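import Pool.Agent.K3h9.RBC.Corr
import Pool.Agent.R544.Util
import Pool.Agent.R544.TF.Red

/-!
# The directed red-blue cut problem: the reduction and membership in NP
-/

set_option autoImplicit false

namespace Pool.Agent.K3h9.RBC

open Pool.Agent.NPC Pool.Agent.NPC.H634R2 Pool.Agent.R544

/-- The reduction from the clique problem. -/
def red (I : (List ℕ × List (ℕ × ℕ)) × ℕ) : ColouredDigraph × (ℕ × ℕ) :=
  if I.2 * (I.2 - 1) / 2 ≤ I.1.2.length then
    (dg I.1.1 I.1.2, (I.1.2.length - I.2 * (I.2 - 1) / 2, I.2))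
  else (([0], []), (0, 0))

theorem no_cut (r b : ℕ) : ¬ HasCut ([0], []) r b := by
  rintro ⟨X, ⟨x, hx⟩, hX, -, -⟩
  obtain ⟨y, hy, hyX⟩ := Finset.exists_of_ssubset hX
  have h1 := hX.1 hx
  simp only [List.toFinset_cons, List.toFinset_nil, insert_empty_eq, Finset.mem_singleton] at h1 hy
  subst h1
  subst hy
  exact hyX hx

theorem no_clique {V : List ℕ} {E : List (ℕ × ℕ)} (h : IsGraph V E) {k : ℕ} (hk : 2 ≤ k)
    (hk2 : ¬ k.choose 2 ≤ E.length) : ¬ HasClique V E k := by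
  rw [hasClique_iff h hk]
  rintro ⟨U, _, _, h3⟩
  have h4 := out_card E U
  omega

theorem red_good (I : (List ℕ × List (ℕ × ℕ)) × ℕ) (h : IsGraph I.1.1 I.1.2) :
    IsDigraph (red I).1 ∧ IsSimple (red I).1 := by
  unfold red
  split_ifs
  · exact ⟨isDigraph_dg h.1, isSimple_dg h.1⟩
  · refine ⟨⟨by simp, by simp⟩, ⟨by simp, by simp⟩⟩

theorem red_correct (I : (List ℕ × List (ℕ × ℕ)) × ℕ) (h : IsGraph I.1.1 I.1.2) (hk : 2 ≤ I.2) :
    CLIQUE I ↔ HasCut (red I).1 (red I).2.1 (red I).2.2 := by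
  unfold CLIQUE red
  rw [← choose_two_eq]
  split_ifs with h1
  · rw [hasCut_iff h hk h1]
    exact ⟨fun h => h.2, fun h' => ⟨h, h'⟩⟩
  · exact ⟨fun h' => absurd h'.2 (no_clique h hk h1), fun h' => absurd h' (no_cut _ _)⟩

/-! ### Polynomial time -/

theorem uPoly_m {α : Type} [TEnc α] {f : α → List (ℕ × ℕ)} (hf : NPC.Poly f) :
    UPoly (fun a => (f a).length) := UPoly.length hf

theorem poly_vs {α : Type} [TEnc α] {V : α → List ℕ} {E : α → List (ℕ × ℕ)} (hV : NPC.Poly V)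
    (hE : NPC.Poly E) : NPC.Poly (fun a => vs (V a) (E a)) := by
  unfold vs
  have h := uPoly_m hE
  have h1 : UPoly (fun a => 2 * ((E a).length + 2) + (E a).length) :=
    UPoly.add (UPoly.mul (UPoly.const 2) (UPoly.add h (UPoly.const 2))) h
  have h2 := h1.range
  refine NPC.Poly.append h2 ?_
  fun_prop

theorem pp_ar : PP (fun x : List (ℕ × ℕ) × (ℕ × ℕ) => Ar x.1 x.2.1 x.2.2) := by
  unfold Ar
  refine PP.and (PP.ne (by fun_prop) (by fun_prop)) (PP.or (PP.lt (by fun_prop) (by fun_prop))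
    (PP.or (PP.and (PP.le (by fun_prop) (by fun_prop)) (PP.lt (by fun_prop) (by fun_prop)))
    (PP.or (PP.and (PP.eq (by fun_prop) (by fun_prop)) (PP.and (PP.le (by fun_prop) (by fun_prop))
      (PP.lt (by fun_prop) (by fun_prop)))) (PP.or (PP.and (PP.and (PP.le (by fun_prop)
      (by fun_prop)) (PP.lt (by fun_prop) (by fun_prop))) (PP.or (PP.eq (by fun_prop)
      (by fun_prop)) (PP.eq (by fun_prop) (by fun_prop)))) (PP.and (PP.le (by fun_prop)
      (by fun_prop)) (PP.eq (by fun_prop) (by fun_prop)))))))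

theorem poly_col {α : Type} [TEnc α] {E : α → List (ℕ × ℕ)} {x y : α → ℕ} (hE : NPC.Poly E)
    (hx : NPC.Poly x) (hy : NPC.Poly y) : NPC.Poly (fun a => col (E a) (x a) (y a)) := by
  unfold col
  fun_prop

attribute [local fun_prop] poly_vs poly_col

theorem poly_dg {α : Type} [TEnc α] {V : α → List ℕ} {E : α → List (ℕ × ℕ)} (hV : NPC.Poly V)
    (hE : NPC.Poly E) : NPC.Poly (fun a => dg (V a) (E a)) := by
  unfold dg
  refine NPC.Poly.pair (by fun_prop) ?_
  have h1 : NPC.Poly (fun a => (vs (V a) (E a) ×ˢ vs (V a) (E a)).filter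
      (fun x => decide (Ar (E a) x.1 x.2))) :=
    PP.filter (l := fun a => vs (V a) (E a) ×ˢ vs (V a) (E a))
      (r := fun a x => Ar (E a) x.1 x.2) (by fun_prop)
      (pp_ar.comp (f := fun x : α × (ℕ × ℕ) => (E x.1, x.2)) (by fun_prop))
  exact NPC.Poly.map (F := fun a x => (x, col (E a) x.1 x.2)) h1 (by fun_prop)

attribute [local fun_prop] poly_dg

theorem poly_red : NPC.Poly red := by
  unfold red
  exact PP.ite (PP.le (by fun_prop) (by fun_prop)) (by fun_prop) (by fun_prop)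

theorem hardI_simple : HardI SimpleRedBlueCut :=
  (hardPr_CLIQUE.trans (Pr' := fun _ => True) poly_red (fun _ _ => trivial) fun I hI => by
    rw [red_correct I hI.1 hI.2]
    have h := red_good I hI.1
    exact ⟨fun h' => ⟨h.1, h.2, h'⟩, fun h' => h'.2.2⟩).toHardI

theorem hardI_cut : HardI RedBlueCut :=
  (hardPr_CLIQUE.trans (Pr' := fun _ => True) poly_red (fun _ _ => trivial) fun I hI => by
    rw [red_correct I hI.1 hI.2]
    have h := red_good I hI.1
    exact ⟨fun h' => ⟨h.1, h'⟩, fun h' => h'.2⟩).toHardI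

/-! ### Membership in NP -/

/-- The test of a certificate, the set `X` given as a list. -/
def Ver (D : ColouredDigraph) (r b : ℕ) (L : List ℕ) : Prop :=
  L ≠ [] ∧ (∀ v ∈ L, v ∈ D.1) ∧ (∃ v ∈ D.1, v ∉ L) ∧
    (D.2.filter (fun a => decide (a.1.1 ∈ L ∧ a.1.2 ∉ L ∧ a.2 = true))).length ≤ r ∧
    (D.2.filter (fun a => decide (a.1.1 ∈ L ∧ a.1.2 ∉ L ∧ a.2 = false))).length ≤ b

theorem pp_filterLen {c : Bool} : NPC.Poly (fun x : (ColouredDigraph × (ℕ × ℕ)) × List ℕ =>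
    (x.1.1.2.filter (fun a => decide (a.1.1 ∈ x.2 ∧ a.1.2 ∉ x.2 ∧ a.2 = c))).length) :=
  NPC.Poly.length (PP.filter (l := fun x : (ColouredDigraph × (ℕ × ℕ)) × List ℕ => x.1.1.2)
    (r := fun x a => a.1.1 ∈ x.2 ∧ a.1.2 ∉ x.2 ∧ a.2 = c) (by fun_prop)
    (PP.and (PP.mem (by fun_prop) (by fun_prop)) (PP.and (PP.not (PP.mem (by fun_prop)
      (by fun_prop))) (PP.eq (by fun_prop) (by fun_prop)))))

theorem pp_ver : PP (fun x : (ColouredDigraph × (ℕ × ℕ)) × List ℕ =>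
    Ver x.1.1 x.1.2.1 x.1.2.2 x.2) := by
  unfold Ver
  refine PP.and (PP.ne (by fun_prop) (by fun_prop)) (PP.and ?_ (PP.and ?_ (PP.and
    (PP.le pp_filterLen (by fun_prop)) (PP.le pp_filterLen (by fun_prop)))))
  · exact PP.ball (l := fun x : (ColouredDigraph × (ℕ × ℕ)) × List ℕ => x.2)
      (r := fun x v => v ∈ x.1.1.1) (by fun_prop) (PP.mem (by fun_prop) (by fun_prop))
  · exact PP.bex (l := fun x : (ColouredDigraph × (ℕ × ℕ)) × List ℕ => x.1.1.1)
      (r := fun x v => v ∉ x.2) (by fun_prop) (PP.not (PP.mem (by fun_prop) (by fun_prop)))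

theorem cutSize_eq (D : ColouredDigraph) (L : List ℕ) (c : Bool) : cutSize D L.toFinset c =
    (D.2.filter (fun a => decide (a.1.1 ∈ L ∧ a.1.2 ∉ L ∧ a.2 = c))).length := by
  unfold cutSize
  rw [List.countP_eq_length_filter]
  simp only [List.mem_toFinset]

theorem hasCut_of_ver {D : ColouredDigraph} {r b : ℕ} {L : List ℕ} (h : Ver D r b L) :
    HasCut D r b := by
  obtain ⟨h1, h2, ⟨v, h3, h4⟩, h5, h6⟩ := h
  refine ⟨L.toFinset, List.toFinset_nonempty_iff L |>.2 h1, ?_, ?_, ?_⟩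
  · refine (Finset.ssubset_iff_of_subset fun x hx => ?_).2 ⟨v, List.mem_toFinset.2 h3,
      fun h => h4 (List.mem_toFinset.1 h)⟩
    exact List.mem_toFinset.2 (h2 x (List.mem_toFinset.1 hx))
  · rw [cutSize_eq]; exact h5
  · rw [cutSize_eq]; exact h6

theorem ver_of_hasCut {D : ColouredDigraph} {r b : ℕ} (h : HasCut D r b) :
    ∃ L : List ℕ, L.Sublist D.1 ∧ Ver D r b L := by
  obtain ⟨X, hX, hXV, hr, hb⟩ := h
  have e : (D.1.filter (fun v => decide (v ∈ X))).toFinset = X := by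
    ext v
    rw [List.mem_toFinset, List.mem_filter, decide_eq_true_eq]
    exact ⟨fun h => h.2, fun h => ⟨List.mem_toFinset.1 (hXV.1 h), h⟩⟩
  obtain ⟨v, hv, hvX⟩ := Finset.exists_of_ssubset hXV
  refine ⟨D.1.filter (fun v => decide (v ∈ X)), List.filter_sublist, ?_, ?_, ?_, ?_, ?_⟩
  · obtain ⟨x, hx⟩ := hX
    have h1 : x ∈ D.1.filter (fun v => decide (v ∈ X)) := by
      rw [← List.mem_toFinset, e]; exact hx
    exact List.ne_nil_of_mem h1
  · intro v hv
    exact (List.mem_filter.1 hv).1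
  · refine ⟨v, List.mem_toFinset.1 hv, fun h => hvX ?_⟩
    rw [List.mem_filter, decide_eq_true_eq] at h
    exact h.2
  · rw [← cutSize_eq, e]; exact hr
  · rw [← cutSize_eq, e]; exact hb

theorem pp_isDigraph : PP (fun x : (ColouredDigraph × (ℕ × ℕ)) × List ℕ => IsDigraph x.1.1) := by
  unfold IsDigraph
  refine PP.and (Pool.Agent.Y592.OP.pp_nodup (by fun_prop)) ?_
  exact PP.ball (l := fun x : (ColouredDigraph × (ℕ × ℕ)) × List ℕ => x.1.1.2)
    (r := fun x a => a.1.1 ∈ x.1.1.1 ∧ a.1.2 ∈ x.1.1.1) (by fun_prop)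
    (PP.and (PP.mem (by fun_prop) (by fun_prop)) (PP.mem (by fun_prop) (by fun_prop)))

theorem pp_isSimple : PP (fun x : (ColouredDigraph × (ℕ × ℕ)) × List ℕ => IsSimple x.1.1) := by
  unfold IsSimple
  refine PP.and ?_ (Pool.Agent.Y592.OP.pp_nodup ?_)
  · exact PP.ball (l := fun x : (ColouredDigraph × (ℕ × ℕ)) × List ℕ => x.1.1.2)
      (r := fun _ a => a.1.1 ≠ a.1.2) (by fun_prop) (PP.ne (by fun_prop) (by fun_prop))
  · exact NPC.Poly.map (F := fun _ (a : (ℕ × ℕ) × Bool) => a.1) (by fun_prop) (by fun_prop)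

theorem sz_cert {I : ColouredDigraph × (ℕ × ℕ)} {L : List ℕ} (h : L.Sublist I.1.1) :
    sz L ≤ (Polynomial.X : Polynomial ℕ).eval (sz I) := by
  have h1 := sz_sublist h
  rw [Polynomial.eval_X]
  obtain ⟨⟨a, b⟩, c⟩ := I
  simp only [sz_pair] at h1 ⊢
  omega

theorem inNPP_cut : InNPP RedBlueCut := by
  refine inNPP_of_pp (R := fun (I : ColouredDigraph × (ℕ × ℕ)) (L : List ℕ) =>
    IsDigraph I.1 ∧ Ver I.1 I.2.1 I.2.2 L) (PP.and pp_isDigraph pp_ver) Polynomial.X ?_ ?_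
  · rintro I ⟨h1, h2⟩
    obtain ⟨L, hL, hV⟩ := ver_of_hasCut h2
    exact ⟨L, sz_cert hL, h1, hV⟩
  · rintro I L ⟨h1, h2⟩
    exact ⟨h1, hasCut_of_ver h2⟩

theorem inNPP_simple : InNPP SimpleRedBlueCut := by
  refine inNPP_of_pp (R := fun (I : ColouredDigraph × (ℕ × ℕ)) (L : List ℕ) =>
    (IsDigraph I.1 ∧ IsSimple I.1) ∧ Ver I.1 I.2.1 I.2.2 L)
    (PP.and (PP.and pp_isDigraph pp_isSimple) pp_ver) Polynomial.X ?_ ?_
  · rintro I ⟨h1, h2, h3⟩
    obtain ⟨L, hL, hV⟩ := ver_of_hasCut h3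
    exact ⟨L, sz_cert hL, ⟨h1, h2⟩, hV⟩
  · rintro I L ⟨h1, h2⟩
    exact ⟨h1.1, h1.2, hasCut_of_ver h2⟩

/-- A problem that is NP-complete is in `P` iff `P = NP`. -/
theorem inPP_iff {α : Type} [TEnc α] {P : α → Prop} (h1 : InNPP P) (h2 : NPHardP P) :
    InPP P ↔ ∀ L : Set (List Bool), InNP L → InP L := by
  constructor
  · intro h L hL
    exact InP.of_reduces (h2 L hL) h
  · intro h
    exact h _ h1

end Pool.Agent.K3h9.RBC
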